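import Pool.Agent.Run7.h41.ExampleMap
import Pool.Agent.Run7.h41.FRig

/-!
# The relative generalized Andrews-Curtis problem has a negative answer

`Cx`, `Sub`, `IsExp`, `Deform`, `IsSimpleEq` and `RelDim` are defined in
`Pool.Agent.Run7.h41.FCW`.
-/

set_option autoImplicit false

namespace Pool.Agent.Results.MP_49c123_gt.FlexibleDeformation

open Pool.Agent.Run7.h41.CW Pool.Agent.Run7.h41.Exm Pool.Agent.Run7.h41.Mod
open Pool.Agent.Run7.h41.Flex

theorem relDim_kemb {σ : Equiv.Perm (Fin 6)} {τ : Fin 4 → Fin 6} (hτ : Function.Injective τ)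
    (h : ∀ j, PK (τ j) = ren σ (PL j)) (h5 : ∀ c, τ c ≠ 5) :
    RelDim (toSub (kemb PL PK σ τ hτ h)) 2 := by
  refine ⟨fun m c _ => ?_, (5 : Fin 6), h5⟩
  match m, c with
  | 0, _ => norm_num
  | 1, _ => norm_num
  | 2, _ => norm_num
  | m + 3, c => exact c.elim

/-- There are connected finite CW complexes `K₀`, `K₁` with a common subcomplex `L` (with inclusions
`j₀`, `j₁`) such that `dim (K₀ - L) = dim (K₁ - L) = 2`, and a simple-homotopy equivalence
`f : K₀ → K₁` which is the identity on `L`, such that there is no three-deformation from `K₀` to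
`K₁` which leaves `L` fixed throughout, whatever map `g` it determines. -/
theorem result : ∃ (L K₀ K₁ : Cx) (j₀ : Sub L K₀) (j₁ : Sub L K₁) (f : C(K₀.X, K₁.X)),
    ConnectedSpace K₀.X ∧ ConnectedSpace K₁.X ∧ RelDim j₀ 2 ∧ RelDim j₁ 2 ∧
    (∀ x, f (j₀.f x) = j₁.f x) ∧ IsSimpleEq f ∧
    ∀ g : C(K₀.X, K₁.X), ¬ Deform 3 L K₀ K₁ j₀ j₁ g := by
  obtain ⟨f, hf⟩ := exists_map
  have h : ConnectedSpace (kp PK).X := inferInstance
  obtain ⟨j, j', g, hD, hg⟩ := isSimple_of_contractible f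
  refine ⟨ofFin (kp PL), ofFin (kp PK), ofFin (kp PK), toSub j₀, toSub j₁, f, h, h,
    relDim_kemb _ _ (by decide), relDim_kemb _ _ (by decide), hf,
    ⟨ofFin FinCW.empty, toSub j, toSub j', g, inferInstanceAs (IsEmpty Empty), deform_toSub hD, hg⟩,
    fun g hD => ?_⟩
  exact not_sext_j₀ ((px_toSub j₀).1 ((px_deform Λ hD).2 ((px_toSub j₁).2 sext_j₁)))

end Pool.Agent.Results.MP_49c123_gt.FlexibleDeformation
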