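import Pool.Agent.Run7.h41.AlgExt

/-!
# Two single relators which are not `Q**`-equivalent, even stably

There is a finitely presented group `H` with two elements `r`, `r'`, each of which normally
generates `H`, which agree modulo the commutator subgroup, and such that the relative presentations
`(H; r)` and `(H; r')` are not related by `Q**`-transformations over `H`.
-/

set_option autoImplicit false

namespace Pool.Agent.Results.MP_49c123_gt.QInequivalent

open Pool.Agent.Run7.h41 Pool.Agent.Run7.h41.Alg

theorem result :
    ∃ (H : Type) (_ : Group H) (r r' : H),
      Group.IsFinitelyPresented H ∧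
      Subgroup.normalClosure {r} = (⊤ : Subgroup H) ∧
      Subgroup.normalClosure {r'} = (⊤ : Subgroup H) ∧
      r⁻¹ * r' ∈ commutator H ∧
      ¬ QEquiv (single r) (single r') :=
  ⟨HH, inferInstance, gt * gy, gs * gt * gy, inferInstance, killer1, killer2, killers_comm,
    not_qequiv⟩

end Pool.Agent.Results.MP_49c123_gt.QInequivalent
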